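import Pool.Agent.N455.TX.Seq
import Pool.Agent.N455.HT.Equi

/-!
# The universal notion of density: all equidistributed sequences at the same time (helper455)
-/

set_option autoImplicit false
set_option linter.unusedSectionVars false

namespace Pool.Agent.N455.TX

open MvPolynomial Pool.Agent.N666.TM Pool.Agent.Y722.HS Pool.Agent.N455.HT

section

variable {ι : Type} [Fintype ι] [DecidableEq ι]

/-- upper density at most `ε` along all sequences which are equidistributed modulo all integers -/
def UDu (ε : ℝ) (A : Set (ι → ℤ)) : Prop :=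
  ∀ (S : ℕ → Finset ℕ) (x : ℕ → ι → ℤ), WS S x → UDs S x ε A

/-- **the universal notion of density** -/
@[reducible] noncomputable def smU : Sm ι where
  UD := UDu
  mono' := fun h hST S x hw => (h S x hw).mono hST
  union' := fun h h' S x hw => (smOf hw).union' (h S x hw) (h' S x hw)
  le' := fun hle h S x hw => (smOf hw).le' hle (h S x hw)
  empty' := fun hε S x hw => (smOf hw).empty' hε
  densp' := by
    intro c hc ε hε
    obtain ⟨P₀, hP₀⟩ := Pool.Agent.W925.UB.Densp.main ι c hc (ε / (2 * 3 ^ Fintype.card ι))
      (by positivity)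
    exact ⟨P₀, fun p hp hpP S x hw => udS_of_UD hw hp.one_lt.le c hε.le (hP₀ p hp hpP)⟩
  hit' := fun P hP hroot ε hε S x hw => (smOf hw).hit' P hP hroot ε hε

/-- null sets for the universal density are null along all sequences -/
theorem nullIn_of_D0 {A : Set (ι → ℤ)} (h : @D0 ι smU A) {S : ℕ → Finset ℕ} {x : ℕ → ι → ℤ}
    (hw : WS S x) : NullIn S {n | x n ∈ A} := fun ε hε => h ε hε S x hw

/-- reindexing -/
theorem equi_comp {κ : Type} [Fintype κ] [DecidableEq κ] (e : κ ≃ ι) {S : ℕ → Finset ℕ}
    {x : ℕ → ι → ℤ} (h : Equi S x) : Equi S (fun n q => x n (e q)) := by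
  intro q hq r
  have h1 := h q hq (fun i => r (e.symm i))
  have h2 : Fintype.card κ = Fintype.card ι := Fintype.card_congr e
  rw [h2]
  refine h1.congr fun N => ?_
  congr 3
  ext n
  simp only [Set.mem_ofPred_eq]
  refine and_congr_right fun _ => ?_
  constructor
  · intro h3 i
    have := h3 (e i)
    rwa [Equiv.symm_apply_apply] at this
  · intro h3 i
    have := h3 (e.symm i)
    rwa [Equiv.apply_symm_apply] at this

end

end Pool.Agent.N455.TX
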