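import Pool.Agent.N455.TX.B5
import Pool.Agent.Y706.B6
set_option autoImplicit false

/-! For 100% of the members of a family over a number field the preperiodic points of bounded
degree are not more than those of the generic member: assembly. -/

namespace Pool.Agent.N455.TX
open Pool.Agent.Y706

open MvPolynomial Pool.Agent.H936R2 Pool.Agent.H927R2.RD H294UB Pool.Agent.W275.UB
  Pool.Agent.W193.UB Pool.Agent.W554.UB NumberField

section main

variable {k : Type} [Field k] [NumberField k] {ι J : Type} [Fintype ι] [Fintype J] [Sm (ι × J)]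
  (ω : Module.Basis J ℤ (𝓞 k)) (kb : Type) [Field kb] [Algebra k kb]

/-- **Transfer.** If the generic member of a family of endomorphisms of projective space over a
number field `k` has at most `C` preperiodic points of degree at most `B` over the field of rational
functions, then 100% of the members have at most `C` preperiodic points of degree at most `B` over
`k`. -/
theorem transferB {N d s B C : ℕ} (hd : 2 ≤ d)
    (a : Idx (N + 1) d → MvPolynomial ι (𝓞 k)) (c : MvPolynomial ι (𝓞 k)) (hc : c ≠ 0)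
    (hM : MonC s c (sy a))
    (hgen : FewB (AlgebraicClosure (FractionRing (MvPolynomial ι (𝓞 k)))) B C
      (fun i => algebraMap (MvPolynomial ι (𝓞 k)) (FractionRing (MvPolynomial ι (𝓞 k))) (a i))) :
    D0 {w : ι × J → ℤ | ¬ (eval (vec ω w) c ≠ 0 ∧ FewB kb B C (cf ω a w))} := by
  classical
  intro ε hε
  by_contra hcon
  set Bad : Set (ι × J → ℤ) := {w | ¬ (eval (vec ω w) c ≠ 0 ∧ FewB kb B C (cf ω a w))} with hBad
  obtain ⟨n, hn, hdvd⟩ := norm_poly ω c hc
  obtain ⟨P₀, hP₀⟩ := densp (ι × J) n hn (ε / 4) (by positivity)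
  obtain ⟨p, hp, hpP⟩ := exists_prime_ge P₀
  obtain ⟨q, hq, hqP⟩ := exists_prime_ge (max P₀ (p + 1))
  have hpq : p ≠ q := by
    have := (le_max_right P₀ (p + 1)).trans hqP
    omega
  obtain ⟨Wp, hWp, hRp⟩ := red p (Module.finrank ℚ k * B) (N + 1) hp
  obtain ⟨Wq, hWq, hRq⟩ := red q (Module.finrank ℚ k * B) (N + 1) hq
  set Bad' : Set (ι × J → ℤ) := {w | w ∈ Bad ∧ ¬ (p : ℤ) ∣ eval w n ∧ ¬ (q : ℤ) ∣ eval w n}
    with hBad'
  have hnot : ¬ (∀ ε : ℝ, 0 < ε → UD ε Bad') := by
    intro h0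
    apply hcon
    have h1 := ((h0 (ε / 4) (by positivity)).union (hP₀ p hp hpP)).union
      (hP₀ q hq ((le_max_left _ _).trans hqP))
    refine UD.le (by linarith : ε / 4 + ε / 4 + ε / 4 ≤ ε) (h1.mono ?_)
    intro w hw
    by_cases h2 : (p : ℤ) ∣ eval w n
    · exact Or.inl (Or.inr h2)
    · by_cases h3 : (q : ℤ) ∣ eval w n
      · exact Or.inr h3
      · exact Or.inl (Or.inl ⟨hw, h2, h3⟩)
  obtain ⟨U, hU, hUB⟩ := exu (ι × J) Bad' hnot
  have key : ∀ w ∈ Bad', ∃ (x : Fin (C + 1) → Fin (N + 1) → kb)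
      (i0 : Fin (C + 1) → Fin (N + 1)) (F : Fin (C + 1) → IntermediateField k kb),
      (∀ l, x l (i0 l) = 1) ∧ (∀ l l' (c : kb), x l = c • x l' → l = l') ∧
      (∀ l, ∃ c : kb, c ≠ 0 ∧
        (pt (sy fun i => algebraMap k kb (cf ω a w i)))^[C + Wp * Wq] (x l) =
        c • (pt (sy fun i => algebraMap k kb (cf ω a w i)))^[C] (x l)) ∧
      ∀ l, FiniteDimensional k (F l) ∧ Module.finrank k (F l) ≤ B ∧ ∀ j, x l j ∈ F l := by
    rintro w ⟨hw, hwp, hwq⟩
    have hm0 : eval w n ≠ 0 := by
      intro h0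
      rw [h0] at hwp
      exact hwp (dvd_zero _)
    have hcw : eval (vec ω w) c ≠ 0 := by
      intro h0
      have h1 := hdvd w
      rw [h0, zero_dvd_iff] at h1
      exact hm0 (by exact_mod_cast h1)
    have hfew : ¬ FewB kb B C (cf ω a w) := fun h => hw ⟨hcw, h⟩
    have hMw : MonC s (eval (vec ω w) c) (sy fun i => eval (vec ω w) (a i)) :=
      hM.map (eval (vec ω w))
    have hMon : MonIn s (sy (cf ω a w)) := by
      refine (hMw.map (algebraMap (𝓞 k) k)).monIn ?_
      rw [isUnit_iff_ne_zero, Ne, FaithfulSMul.algebraMap_eq_zero_iff]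
      exact hcw
    refine manyB hMon B C (Wp * Wq) ?_ hfew
    intro y hy hyB m hm hper
    exact per_B (kb := kb) W405.UB.main lev hp hq hpq hRp hRq le_rfl
      (fun i => eval (vec ω w) (a i)) (eval (vec ω w) c) hMw hMon (eval w n) (hdvd w) hwp hwq hy
      hyB hm hper
  choose! x i0 F hx using key
  refine generic_ptsB ω W405.UB.main (H294UB.taskCnt H294UB.taskFib) W125.UB.FinT.fin_main
    dens urel hd (Nat.mul_pos hWp hWq) a c hc hM U hU x i0 F ?_ hgen
  filter_upwards [hUB] with w hw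
  exact hx w hw

end main

end Pool.Agent.N455.TX
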