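import Pool.Agent.N455.TX.PT2
import Pool.Agent.N455.TX.Univ
import Pool.Agent.Y706.PT3

set_option autoImplicit false

/-! The portrait theorem over the rational numbers, along equidistributed sequences. -/

namespace Pool.Agent.N455.TX
open Pool.Agent.Y706

open MvPolynomial Pool.Agent.H936R2 Pool.Agent.H927R2.RD H294UB Pool.Agent.W275.UB
  Pool.Agent.W193.UB Pool.Agent.W554.UB NumberField Filter Topology
open Pool.Agent.N455.HT (Equi WS)
open Pool.Agent.N666.TM (NullIn)

theorem portraitQ_thin (N d : ℕ) (hd : 2 ≤ d) (m : ℕ)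
    (F : Fin (N + 1) → MvPolynomial (Fin (N + 1)) (MvPolynomial (Fin m) ℚ))
    (hF : ∀ i, (F i).IsHomogeneous d)
    (hmor : MorP fun i => (F i).map (algebraMap (MvPolynomial (Fin m) ℚ)
      (FractionRing (MvPolynomial (Fin m) ℚ)))) :
    ∃ (r : ℕ) (x : Fin r → Fin (N + 1) → MvPolynomial (Fin m) ℚ) (σ : Fin r → Fin r),
      PortO (fun i => (F i).map (algebraMap (MvPolynomial (Fin m) ℚ)
        (FractionRing (MvPolynomial (Fin m) ℚ)))) (fun i j => algebraMap (MvPolynomial (Fin m) ℚ)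
        (FractionRing (MvPolynomial (Fin m) ℚ)) (x i j)) σ ∧
      ∀ (S : ℕ → Finset ℕ) (v : ℕ → Fin (m + 1) → ℤ), Equi S v →
        NullIn S {n | ¬ (v n 0 ≠ 0 ∧
          MorP (fun i => (F i).map (MvPolynomial.eval fun l : Fin m =>
            (v n l.succ : ℚ) / (v n 0 : ℚ))) ∧
          PortO (fun i => (F i).map (MvPolynomial.eval fun l : Fin m =>
            (v n l.succ : ℚ) / (v n 0 : ℚ))) (fun i j => MvPolynomial.eval (fun l : Fin m =>
            (v n l.succ : ℚ) / (v n 0 : ℚ)) (x i j)) σ)} := by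
  classical
  letI : Sm (Fin (m + 1) × Unit) := smU
  obtain ⟨v, hv⟩ : ∃ v : Idx (N + 1) d → MvPolynomial (Fin m) ℚ,
    v = fun i => coeff (expo i.2) (F i.1) := ⟨_, rfl⟩
  have hFv : F = sy v := by
    rw [hv]
    funext i
    exact (form_coeff (hF i)).symm
  have hmap : ∀ {S : Type} [CommRing S] (φ : MvPolynomial (Fin m) ℚ →+* S),
      (fun i => (F i).map φ) = sy fun i => φ (v i) := by
    intro S _ φ
    rw [hFv]
    exact Pool.Agent.W193.UB.map_sy φ v
  rw [hmap] at hmor ⊢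
  obtain ⟨vK, hvK⟩ : ∃ vK : Idx (N + 1) d → KF ℚ m,
    vK = fun i => algebraMap (RR ℚ m) (KF ℚ m) (v i) := ⟨_, rfl⟩
  -- the generic member
  obtain ⟨s, c, hc, hMC⟩ := exists_monC (algebraMap (KF ℚ m)
    (AlgebraicClosure (KF ℚ m))) vK (by
      intro x hx
      apply hmor x
      intro i
      have h1 := hx i
      rw [hvK, ← Pool.Agent.W193.UB.map_sy, eval_map] at h1
      rw [aeval_def]
      exact h1)
  have hc0 : c ≠ 0 := by
    rintro rfl
    exact hc (map_zero _)
  have hM : MonIn s (sy vK) := hMC.monIn (isUnit_iff_ne_zero.2 hc0)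
  rw [hvK] at hM
  obtain ⟨r, x, σ, h1, h2⟩ := portrait_family omQ hd v hM
  refine ⟨r, x, σ, h1.portO (Pool.Agent.W193.UB.sy_hom _) hM, ?_⟩
  intro S u hu
  have hw : WS S (fun n (q : Fin (m + 1) × Unit) => u n q.1) :=
    WS.of_equi (equi_comp (Equiv.prodUnique (Fin (m + 1)) Unit) hu)
  have h3 := nullIn_of_D0 h2 hw
  refine Pool.Agent.N455.HT.NullIn.mono' h3 ?_
  intro n hn hcon
  apply hn
  obtain ⟨g1, ⟨s', g2⟩, g3⟩ := hcon
  set w : Fin (m + 1) × Unit → ℤ := fun q => u n q.1 with hw'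
  have htp : (fun l : Fin m => ((u n l.succ : ℤ) : ℚ) / ((u n 0 : ℤ) : ℚ)) = tp omQ w := by
    funext l
    unfold tp
    rw [vec_omQ, vec_omQ]
  refine ⟨?_, ?_, ?_⟩
  · intro h0
    apply g1
    have h3 := vec_omQ w (0 : Fin (m + 1))
    rw [show w (0, ()) = 0 from h0, Int.cast_zero, FaithfulSMul.algebraMap_eq_zero_iff] at h3
    exact h3
  · rw [htp, hmap]
    intro x hx
    have g5 : MonIn s' (sy fun i => algebraMap ℚ (AlgebraicClosure ℚ) (eval (tp omQ w) (v i))) :=
      monIn_map (algebraMap ℚ (AlgebraicClosure ℚ)) g2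
    apply no_zero _ g5 x
    intro i
    have h1 := hx i
    rw [aeval_def] at h1
    rw [← Pool.Agent.W193.UB.map_sy, eval_map]
    exact h1
  · rw [htp, hmap]
    exact g3.portO (Pool.Agent.W193.UB.sy_hom _) g2

end Pool.Agent.N455.TX
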