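import Pool.Agent.N455.TX.G16
import Pool.Agent.Y706.PT1
set_option autoImplicit false

/-! The portrait of the rational preperiodic points of 100% of the members of a family. -/

namespace Pool.Agent.N455.TX
open Pool.Agent.Y706

open MvPolynomial Pool.Agent.H936R2 Pool.Agent.H927R2.RD H294UB Pool.Agent.W275.UB
  Pool.Agent.W193.UB Pool.Agent.W554.UB NumberField

section

variable {k : Type} [Field k] [NumberField k] {J : Type} [Fintype J] {m : ℕ} [Sm (Fin (m + 1) × J)]
  (ω : Module.Basis J ℤ (𝓞 k))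

/-- the zeros of a nonzero polynomial in the parameters are negligible -/
theorem D0_tp {Δ : MvPolynomial (Fin m) k} (hΔ : Δ ≠ 0) :
    D0 {w : Fin (m + 1) × J → ℤ | eval (tp ω w) Δ = 0} := by
  classical
  obtain ⟨c, hc, hci⟩ := exists_mult (fun _ : Unit => Δ)
  set A : Fin m → MvPolynomial (Fin (m + 1)) (𝓞 k) := fun l => X l.succ with hA
  set B₀ : MvPolynomial (Fin (m + 1)) (𝓞 k) := X 0 with hB₀
  set a : MvPolynomial (Fin (m + 1)) (𝓞 k) := homm A B₀ c Δ.totalDegree Δ with ha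
  have hB₀0 : B₀ ≠ 0 := MvPolynomial.X_ne_zero 0
  have hBK : algebraMap (MvPolynomial (Fin (m + 1)) (𝓞 k)) (KK k (Fin (m + 1))) B₀ ≠ 0 := by
    rw [Ne, FaithfulSMul.algebraMap_eq_zero_iff]
    exact hB₀0
  set u : KK k (Fin (m + 1)) := kap c *
    algebraMap (MvPolynomial (Fin (m + 1)) (𝓞 k)) (KK k (Fin (m + 1))) B₀ ^ Δ.totalDegree with hu
  have hu0 : u ≠ 0 := mul_ne_zero ((map_ne_zero kap).2 hc) (pow_ne_zero _ hBK)
  have haK : algebraMap (MvPolynomial (Fin (m + 1)) (𝓞 k)) (KK k (Fin (m + 1))) a =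
      u * TM k m (algebraMap (MvPolynomial (Fin m) k)
        (FractionRing (MvPolynomial (Fin m) k)) Δ) := by
    rw [ha]
    rw [homm_map kap (algebraMap (MvPolynomial (Fin (m + 1)) (𝓞 k)) (KK k (Fin (m + 1)))) kap_spec
      hBK Δ le_rfl (hci ()), TM_apply, aeval_kap]
    rfl
  have hane : a ≠ 0 := by
    intro h0
    have h1 := haK
    rw [h0, map_zero] at h1
    have h2 : TM k m (algebraMap (MvPolynomial (Fin m) k)
        (FractionRing (MvPolynomial (Fin m) k)) Δ) ≠ 0 := by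
      rw [map_ne_zero, Ne, FaithfulSMul.algebraMap_eq_zero_iff]
      exact hΔ
    exact mul_ne_zero hu0 h2 h1.symm
  have h1 := (D0_B ω hane).union (D0_B ω hB₀0)
  intro ε hε
  refine (h1 ε hε).mono ?_
  intro w hw
  by_contra hcon
  rw [Set.mem_union, not_or] at hcon
  obtain ⟨hcon1, hcon2⟩ := hcon
  have hBw : sp ω w B₀ ≠ 0 := by
    rw [sp, RingHom.comp_apply, Ne, FaithfulSMul.algebraMap_eq_zero_iff]
    exact hcon2
  have hspX : ∀ i : Fin (m + 1), sp ω w (X i) = algebraMap (𝓞 k) k (vec ω w i) := by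
    intro i
    rw [sp, RingHom.comp_apply, MvPolynomial.eval_X]
  have hspec : ∀ y, sp ω w (MvPolynomial.C y : MvPolynomial (Fin (m + 1)) (𝓞 k)) =
      (RingHom.id k) (algebraMap (𝓞 k) k y) := by
    intro y
    rw [sp, RingHom.comp_apply, MvPolynomial.eval_C, RingHom.id_apply]
  have hcf : sp ω w a = (c * sp ω w B₀ ^ Δ.totalDegree) * eval (tp ω w) Δ := by
    rw [ha, homm_map (RingHom.id k) (sp ω w) hspec hBw Δ le_rfl (hci ()), RingHom.id_apply]
    congr 1
    have h2 : (fun l => sp ω w (A l) / sp ω w B₀) = tp ω w := by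
      funext l
      rw [hA, hB₀]
      simp only
      rw [hspX, hspX]
      rfl
    rw [h2]
    rfl
  have hw0 : eval (tp ω w) Δ = 0 := hw
  rw [hw0, mul_zero, sp, RingHom.comp_apply, FaithfulSMul.algebraMap_eq_zero_iff] at hcf
  exact hcon1 hcf

end

end Pool.Agent.N455.TX
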