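import Pool.Agent.N455.TX.PT1
import Pool.Agent.Y706.PT2
set_option autoImplicit false

/-! The portrait of the rational preperiodic points of 100% of the members of a family. -/

namespace Pool.Agent.N455.TX
open Pool.Agent.Y706

open MvPolynomial Pool.Agent.H936R2 Pool.Agent.H927R2.RD H294UB Pool.Agent.W275.UB
  Pool.Agent.W193.UB Pool.Agent.W554.UB NumberField

section

variable {k : Type} [Field k] [NumberField k] {J : Type} [Fintype J] {m : ℕ} [Sm (Fin (m + 1) × J)]
  (ω : Module.Basis J ℤ (𝓞 k))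

/-- **The portrait of the rational preperiodic points of 100% of the members of a family.** -/
theorem portrait_family {N d s : ℕ} (hd : 2 ≤ d) (v : Idx (N + 1) d → MvPolynomial (Fin m) k)
    (hM : MonIn s (sy fun i => algebraMap (MvPolynomial (Fin m) k)
      (FractionRing (MvPolynomial (Fin m) k)) (v i))) :
    ∃ (r : ℕ) (x : Fin r → Fin (N + 1) → MvPolynomial (Fin m) k) (σ : Fin r → Fin r),
      Portrait (sy fun i => algebraMap (MvPolynomial (Fin m) k)
        (FractionRing (MvPolynomial (Fin m) k)) (v i))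
        (fun i j => algebraMap (MvPolynomial (Fin m) k)
          (FractionRing (MvPolynomial (Fin m) k)) (x i j)) σ ∧
      D0 {w : Fin (m + 1) × J → ℤ | ¬ (vec ω w 0 ≠ 0 ∧
        (∃ s, MonIn s (sy fun i => eval (tp ω w) (v i))) ∧
        Portrait (sy fun i => eval (tp ω w) (v i)) (fun i j => eval (tp ω w) (x i j)) σ)} := by
  classical
  obtain ⟨vK, hvK⟩ : ∃ vK : Idx (N + 1) d → KF k m, vK = fun i => algebraMap (RR k m) (KF k m) (v i) :=
    ⟨_, rfl⟩
  have hM' := hM
  rw [← hvK] at hM' ⊢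
  have hs := Pool.Agent.W193.UB.sy_hom (R := KF k m) vK
  obtain ⟨C, hC⟩ := np_RF (k := k) m N d s vK hd hM' 1
  have hfew : Few C (sy vK) := fewB_self.1 (hC (KF k m))
  obtain ⟨r, y, σ, hy, hfr⟩ := exists_portrait hM' hfew
  obtain ⟨b, hb⟩ := IsLocalization.exist_integer_multiples_of_finite (nonZeroDivisors (RR k m))
    (fun q : Fin r × Fin (N + 1) => y q.1 q.2)
  choose x hx using fun i j => hb (i, j)
  have hb0 : algebraMap (RR k m) (KF k m) (b : RR k m) ≠ 0 := by
    rw [Ne, FaithfulSMul.algebraMap_eq_zero_iff]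
    exact nonZeroDivisors.coe_ne_zero b
  have hxy : (fun i j => algebraMap (RR k m) (KF k m) (x i j)) = fun i => (algebraMap (RR k m) (KF k m) (b : RR k m)) • y i := by
    funext i j
    have h1 := hx i j
    rw [h1, Algebra.smul_def]
    rfl
  have hport : Portrait (sy vK) (fun i j => algebraMap (RR k m) (KF k m) (x i j)) σ := by
    rw [hxy]
    exact hy.scale hs hb0
  refine ⟨r, x, σ, hport, ?_⟩
  have hfr' := hfr
  rw [hvK] at hfr'
  have h3 := paramB ω k hd v hM (fewB_of_few (L := AlgebraicClosure (KF k m)) hfr')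
  obtain ⟨q1, q2, q3, -⟩ := hport
  have hinj : Function.Injective (algebraMap (RR k m) (KF k m)) := IsFractionRing.injective (RR k m) (KF k m)
  -- nonzero coordinates
  have g1 : ∀ i, ∃ p, x i p ≠ 0 := by
    intro i
    obtain ⟨p, hp⟩ := Function.ne_iff.1 (q1 i)
    refine ⟨p, fun h0 => hp ?_⟩
    simp only [h0, map_zero]
    rfl
  choose p hp using g1
  -- minors
  have g2 : ∀ i j, ∃ Δ : RR k m, Δ ≠ 0 ∧ (i ≠ j → ∀ φ : RR k m →+* k, φ Δ ≠ 0 →
      ∀ c : k, (fun l => φ (x i l)) ≠ c • fun l => φ (x j l)) := by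
    intro i j
    by_cases hij : i = j
    · exact ⟨1, one_ne_zero, fun h => absurd hij h⟩
    · obtain ⟨a, b', hab⟩ := exists_minor (x := fun l => algebraMap (RR k m) (KF k m) (x j l))
        (y := fun l => algebraMap (RR k m) (KF k m) (x i l)) (q1 j) (fun c hc => hij (q2 i j c hc))
      refine ⟨x j a * x i b' - x j b' * x i a, ?_, fun _ φ hφ c hc => ?_⟩
      · intro h0
        apply hab
        rw [← map_mul, ← map_mul, ← map_sub, h0, map_zero]
      · apply hφ
        have e1 : φ (x i a) = c * φ (x j a) := congrFun hc a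
        have e2 : φ (x i b') = c * φ (x j b') := congrFun hc b'
        rw [map_sub, map_mul, map_mul, e1, e2]
        ring
  choose Δ hΔ0 hΔ using g2
  -- the map
  have g3 : ∀ i, ∃ a b : RR k m, a ≠ 0 ∧ b ≠ 0 ∧ ∀ l, b * eval (x i) (sy v l) = a * x (σ i) l := by
    intro i
    obtain ⟨c, hc, h4⟩ := q3 i
    obtain ⟨a, b, hb, hab⟩ := IsFractionRing.div_surjective (A := RR k m) c
    have hb' : b ≠ 0 := nonZeroDivisors.ne_zero hb
    have hbK : algebraMap (RR k m) (KF k m) b ≠ 0 := by
      rw [Ne, FaithfulSMul.algebraMap_eq_zero_iff]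
      exact hb'
    refine ⟨a, b, ?_, hb', fun l => ?_⟩
    · rintro rfl
      rw [map_zero, zero_div] at hab
      exact hc hab.symm
    · apply hinj
      rw [map_mul, map_mul]
      have h5 := congrFun h4 l
      have h6 : pt (sy vK) (fun j => algebraMap (RR k m) (KF k m) (x i j)) l =
          algebraMap (RR k m) (KF k m) (eval (x i) (sy v l)) := by
        show eval _ (sy vK l) = _
        have h7 := congrFun (Pool.Agent.W193.UB.map_sy (algebraMap (RR k m) (KF k m)) v) l
        rw [hvK, ← h7, eval_map]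
        exact (eval₂_comp_left (algebraMap (RR k m) (KF k m)) (RingHom.id (RR k m)) (x i) (sy v l)).symm
      rw [h6] at h5
      rw [h5, Pi.smul_apply, smul_eq_mul, ← hab]
      field_simp
  choose a b' ha hb' hab using g3
  -- the bad polynomial
  set Δ₀ : RR k m := (∏ i, x i (p i)) * (∏ i, a i * b' i) * ∏ i, ∏ j, Δ i j with hΔ₀
  have hΔ₀0 : Δ₀ ≠ 0 := by
    refine mul_ne_zero (mul_ne_zero (Finset.prod_ne_zero_iff.2 fun i _ => hp i)
      (Finset.prod_ne_zero_iff.2 fun i _ => mul_ne_zero (ha i) (hb' i)))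
      (Finset.prod_ne_zero_iff.2 fun i _ => Finset.prod_ne_zero_iff.2 fun j _ => hΔ0 i j)
  have h4 := h3.union (D0_tp ω hΔ₀0)
  intro ε hε
  refine (h4 ε hε).mono ?_
  intro w hw
  by_contra hcon
  rw [Set.mem_union, not_or] at hcon
  obtain ⟨hcon1, hcon2⟩ := hcon
  apply hw
  obtain ⟨w1, w2, w3⟩ : vec ω w 0 ≠ 0 ∧ (∃ s, MonIn s (sy fun i => eval (tp ω w) (v i))) ∧
      FewB k 1 r (fun i => eval (tp ω w) (v i)) := by
    by_contra h5
    exact hcon1 h5
  refine ⟨w1, w2, ?_⟩
  have w4 : eval (tp ω w) Δ₀ ≠ 0 := hcon2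
  rw [hΔ₀, map_mul, map_mul, map_prod, map_prod, map_prod] at w4
  have w5 := left_ne_zero_of_mul (left_ne_zero_of_mul w4)
  have w6 := right_ne_zero_of_mul (left_ne_zero_of_mul w4)
  have w7 := right_ne_zero_of_mul w4
  have e1 : ∀ i, (fun j => eval (tp ω w) (x i j)) ≠ 0 := by
    intro i h0
    have h5 := Finset.prod_ne_zero_iff.1 w5 i (Finset.mem_univ i)
    exact h5 (congrFun h0 (p i))
  have e2 : ∀ i j, ∀ c : k, (fun l => eval (tp ω w) (x i l)) = c • (fun l => eval (tp ω w) (x j l)) →
      i = j := by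
    intro i j c hc
    by_contra hij
    have h5 := Finset.prod_ne_zero_iff.1 w7 i (Finset.mem_univ i)
    rw [map_prod] at h5
    exact hΔ i j hij (eval (tp ω w)) (Finset.prod_ne_zero_iff.1 h5 j (Finset.mem_univ j)) c hc
  have e3 : ∀ i, ∃ c : k, c ≠ 0 ∧ pt (sy fun i => eval (tp ω w) (v i))
      (fun j => eval (tp ω w) (x i j)) = c • fun j => eval (tp ω w) (x (σ i) j) := by
    intro i
    have h5 := Finset.prod_ne_zero_iff.1 w6 i (Finset.mem_univ i)
    rw [map_mul] at h5
    have h6 := left_ne_zero_of_mul h5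
    have h7 := right_ne_zero_of_mul h5
    refine ⟨eval (tp ω w) (a i) / eval (tp ω w) (b' i), div_ne_zero h6 h7, ?_⟩
    funext l
    have h8 : pt (sy fun i => eval (tp ω w) (v i)) (fun j => eval (tp ω w) (x i j)) l =
        eval (tp ω w) (eval (x i) (sy v l)) := by
      show eval _ (sy (fun i => eval (tp ω w) (v i)) l) = _
      have h9 := congrFun (Pool.Agent.W193.UB.map_sy (eval (tp ω w)) v) l
      rw [← h9, eval_map]
      exact (eval₂_comp_left (eval (tp ω w)) (RingHom.id (RR k m)) (x i) (sy v l)).symm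
    rw [h8, Pi.smul_apply, smul_eq_mul, div_mul_eq_mul_div, eq_div_iff h7, ← map_mul, ← map_mul,
      mul_comm, hab i l]
  refine ⟨e1, e2, e3, fun z hz hpz => ?_⟩
  by_contra hcon
  push Not at hcon
  have hsw := Pool.Agent.W193.UB.sy_hom (R := k) fun i => eval (tp ω w) (v i)
  have hfw := fewB_self.1 w3
  let f : Fin r → Fin (N + 1) → k := fun i j => eval (tp ω w) (x i j)
  have hf : Function.Injective f := fun i j hij => e2 i j 1 (by rw [one_smul]; exact hij)
  have hzf : z ∉ Finset.univ.image f := by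
    intro h5
    obtain ⟨i, -, hi⟩ := Finset.mem_image.1 h5
    exact hcon i 1 one_ne_zero (by rw [one_smul]; exact hi.symm)
  have h5 := hfw (insert z (Finset.univ.image f)) ?_ ?_ ?_
  · rw [Finset.card_insert_of_notMem hzf, Finset.card_image_of_injective _ hf, Finset.card_univ,
      Fintype.card_fin] at h5
    omega
  · intro x' hx'
    rcases Finset.mem_insert.1 hx' with rfl | hx'
    · exact hz
    · obtain ⟨i, -, rfl⟩ := Finset.mem_image.1 hx'
      exact e1 i
  · intro x' hx' y' hy' c hc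
    rcases Finset.mem_insert.1 hx' with h6 | h6 <;> rcases Finset.mem_insert.1 hy' with h7 | h7
    · rw [h6, h7]
    · exfalso
      obtain ⟨i, -, hi⟩ := Finset.mem_image.1 h7
      rw [h6, ← hi] at hc
      refine hcon i c ?_ hc
      rintro rfl
      exact hz (by rw [hc, zero_smul])
    · exfalso
      obtain ⟨i, -, hi⟩ := Finset.mem_image.1 h6
      rw [h7, ← hi] at hc
      have hc0 : c ≠ 0 := by
        rintro rfl
        exact e1 i (by rw [zero_smul] at hc; exact hc)
      refine hcon i c⁻¹ (inv_ne_zero hc0) ?_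
      have h8 : c⁻¹ • f i = z := by
        rw [hc, smul_smul, inv_mul_cancel₀ hc0, one_smul]
      exact h8.symm
    · obtain ⟨i, -, hi⟩ := Finset.mem_image.1 h6
      obtain ⟨j, -, hj⟩ := Finset.mem_image.1 h7
      rw [← hi, ← hj] at hc ⊢
      rw [e2 i j c hc]
  · intro x' hx'
    rcases Finset.mem_insert.1 hx' with rfl | hx'
    · exact hpz
    · obtain ⟨i, -, rfl⟩ := Finset.mem_image.1 hx'
      exact pre_of_sigma hsw e3 i

end

end Pool.Agent.N455.TX
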