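import Pool.Agent.N455.TX.R2
import Pool.Agent.Y706.Rac3

set_option autoImplicit false

/-! The subfield `k(w)` of the ultrapower of a number field is relatively algebraically closed. -/

namespace Pool.Agent.N455.TX

open MvPolynomial Pool.Agent.W275.UB Pool.Agent.Y706 IntermediateField

set_option linter.unusedSectionVars false

section

variable {ι : Type} [Fintype ι] [Sm ι] {U : Ultrafilter (ι → ℤ)}

lemma faithful {k : Type} [Field k] [CharZero k] (hd : S_dens) (hU : Gen U) :
    FaithfulSMul (MvPolynomial ι ℤ) (UP U k) :=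
  (faithfulSMul_iff_algebraMap_injective _ _).mpr (evk_inj hd hU)

lemma isAlg_sum (hd : S_dens) (hU : Gen U) {k : Type} [Field k] [CharZero k] {τ : Type*}
    (s : Finset τ) (f : τ → UP U k) (h : ∀ t ∈ s, IsAlgebraic (MvPolynomial ι ℤ) (f t)) :
    IsAlgebraic (MvPolynomial ι ℤ) (∑ t ∈ s, f t) := by
  have := faithful (k := k) hd hU
  exact (Subalgebra.algebraicClosure (MvPolynomial ι ℤ) (UP U k)).sum_mem h

lemma isAlg_trace (hd : S_dens) (hU : Gen U) {k : Type} [Field k] [NumberField k]
    (x : (ι → ℤ) → k) (hx : IsAlgebraic (MvPolynomial ι ℤ) (up U k x)) (c : k) :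
    IsAlgebraic (MvPolynomial ι ℤ) (up U ℚ fun w => Algebra.trace ℚ k (x w * c)) := by
  have := faithful (k := k) hd hU
  apply isAlg_of_upMap (algebraMap ℚ ℂ)
  have h1 : upMap U (algebraMap ℚ ℂ) (up U ℚ fun w => Algebra.trace ℚ k (x w * c)) =
      ∑ σ : k →ₐ[ℚ] ℂ, upMap U (σ : k →+* ℂ) (up U k x * up U k fun _ => c) := by
    rw [upMap_up]
    have h2 : ∀ σ : k →ₐ[ℚ] ℂ, upMap U (σ : k →+* ℂ) (up U k x * up U k fun _ => c) =
        up U ℂ fun w => σ (x w * c) := by
      intro σ
      rw [← map_mul, upMap_up]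
      rfl
    rw [Finset.sum_congr rfl fun σ _ => h2 σ, ← map_sum]
    congr 1
    funext w
    rw [Finset.sum_apply, trace_eq_sum_embeddings ℂ]
  rw [h1]
  apply isAlg_sum hd hU
  intro σ _
  apply isAlg_upMap
  exact hx.mul (isAlg_const c)

/-- `k(w)` is relatively algebraically closed -/
theorem rac_w (hd : S_dens) (hurel : S_urel) (hU : Gen U) {k : Type} [Field k] [NumberField k]
    (x : UP U k) (hx : IsAlgebraic (MvPolynomial ι ℤ) x) :
    x ∈ adjoin k (Set.range (Wk U k)) := by
  classical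
  obtain ⟨x, rfl⟩ := up_surj x
  let b := Module.finBasis ℚ k
  have hx1 : ∀ w, x w = ∑ j, algebraMap ℚ k (Algebra.trace ℚ k (x w * b j)) * b.traceDual j := by
    intro w
    conv_lhs => rw [← b.traceDual.sum_repr (x w)]
    refine Finset.sum_congr rfl fun j _ => ?_
    rw [Module.Basis.traceDual_repr_apply, Algebra.traceForm_apply, Algebra.smul_def]
  have hx2 : up U k x = ∑ j, upMap U (algebraMap ℚ k)
      (up U ℚ fun w => Algebra.trace ℚ k (x w * b j)) * algebraMap k (UP U k) (b.traceDual j) := by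
    have h3 : ∀ j, upMap U (algebraMap ℚ k)
        (up U ℚ fun w => Algebra.trace ℚ k (x w * b j)) *
        algebraMap k (UP U k) (b.traceDual j) = up U k fun w =>
        algebraMap ℚ k (Algebra.trace ℚ k (x w * b j)) * b.traceDual j := by
      intro j
      rw [upMap_up, algebraMap_up, ← map_mul]
      rfl
    rw [Finset.sum_congr rfl fun j _ => h3 j, ← map_sum]
    congr 1
    funext w
    rw [Finset.sum_apply]
    exact hx1 w
  rw [hx2]
  refine sum_mem fun j _ => mul_mem ?_ (_root_.algebraMap_mem _ _)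
  obtain ⟨G, hG, hG2⟩ := isAlg_trace hd hU x hx (b j)
  set T : (ι → ℤ) → ℚ := fun w => Algebra.trace ℚ k (x w * b j) with hT
  have hev : ∀ᶠ v in (U : Filter (ι → ℤ)),
      (G.map ((Int.castRingHom ℚ).comp (eval v))).eval (T v) = 0 := by
    rw [← up_eq_zero (k := ℚ), ← hG2, Polynomial.aeval_def]
    have h4 : algebraMap (MvPolynomial ι ℤ) (UP U ℚ) = (up U ℚ).comp
        (RingHom.pi fun v => (Int.castRingHom ℚ).comp (eval v)) := rfl
    rw [h4, ← Polynomial.hom_eval₂]
    congr 1
    funext v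
    have h5 := Polynomial.hom_eval₂ G
      (RingHom.pi fun v : ι → ℤ => (Int.castRingHom ℚ).comp (eval v))
      (Pi.evalRingHom (fun _ : ι → ℤ => ℚ) v) T
    rw [Pi.evalRingHom_apply, Pi.evalRingHom_apply] at h5
    rw [h5, Polynomial.eval_map]
    rfl
  obtain ⟨a, c, hc, hac⟩ := hurel ι U hU T G hG hev
  have h6 : evk U k c * upMap U (algebraMap ℚ k) (up U ℚ T) = evk U k a := by
    rw [← upMap_evk (algebraMap ℚ k) c, ← upMap_evk (algebraMap ℚ k) a, ← map_mul]
    congr 1
    rw [evk_def, evk_def, ← map_mul, up_eq]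
    exact hac
  have h7 : evk U k c ≠ 0 := fun h => hc (evk_inj hd hU (h.trans (map_zero _).symm))
  have h8 : upMap U (algebraMap ℚ k) (up U ℚ T) = evk U k a / evk U k c := by
    rw [← h6, mul_comm, mul_div_cancel_right₀ _ h7]
  rw [h8]
  exact div_mem (evk_mem a) (evk_mem c)

end

end Pool.Agent.N455.TX
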