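import Pool.Agent.N455.TX.R3
import Pool.Agent.Y706.Rac4
set_option autoImplicit false

/-! The subfield `k(v)` of the ultrapower is relatively algebraically closed, where
`v i = ∑ j, z j * w (i, j)`. -/

namespace Pool.Agent.N455.TX
open Pool.Agent.Y706

open MvPolynomial Pool.Agent.W275.UB IntermediateField

set_option linter.unusedSectionVars false

section

variable {ι : Type} [Fintype ι] [Sm ι] {U : Ultrafilter (ι → ℤ)}

/-- the elements algebraic over the coordinates -/
def algF (hd : S_dens) (hU : Gen U) (k : Type) [Field k] [NumberField k] :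
    IntermediateField k (UP U k) where
  carrier := {x | IsAlgebraic (MvPolynomial ι ℤ) x}
  mul_mem' := by
    have := faithful (k := k) hd hU
    intro a b ha hb
    exact IsAlgebraic.mul ha hb
  add_mem' := by
    have := faithful (k := k) hd hU
    intro a b ha hb
    exact IsAlgebraic.add ha hb
  algebraMap_mem' := fun c => isAlg_const c
  inv_mem' := by
    have := faithful (k := k) hd hU
    intro a ha
    exact IsAlgebraic.inv ha

lemma mem_algF (hd : S_dens) (hU : Gen U) {k : Type} [Field k] [NumberField k] (x : UP U k) :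
    x ∈ algF hd hU k ↔ IsAlgebraic (MvPolynomial ι ℤ) x := Iff.rfl

lemma Wk_alg (hd : S_dens) (hU : Gen U) {k : Type} [Field k] [NumberField k] (q : ι) :
    Wk U k q ∈ algF hd hU k := by
  have := faithful (k := k) hd hU
  rw [mem_algF, ← evk_X]
  exact isAlgebraic_algebraMap _

/-- an element algebraic over a subfield of `algF` belongs to `algF` -/
lemma algF_trans (hd : S_dens) (hU : Gen U) {k : Type} [Field k] [NumberField k]
    (F : IntermediateField k (UP U k)) (hF : F ≤ algF hd hU k) (x : UP U k)
    (hx : IsAlgebraic F x) : IsAlgebraic (MvPolynomial ι ℤ) x := by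
  have := faithful (k := k) hd hU
  let S := Subalgebra.algebraicClosure (MvPolynomial ι ℤ) (UP U k)
  obtain ⟨p, hp, hpx⟩ := hx
  let g : F →+* S :=
    { toFun := fun y => ⟨y.1, hF y.2⟩
      map_one' := rfl
      map_mul' := fun _ _ => rfl
      map_zero' := rfl
      map_add' := fun _ _ => rfl }
  have hg : (algebraMap S (UP U k)).comp g = algebraMap F (UP U k) := rfl
  have h1 : IsAlgebraic S x := by
    refine ⟨p.map g, ?_, ?_⟩
    · rw [Ne, Polynomial.map_eq_zero_iff g.injective]
      exact hp
    · rw [Polynomial.aeval_def, Polynomial.eval₂_map, hg, ← Polynomial.aeval_def]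
      exact hpx
  exact h1.restrictScalars (MvPolynomial ι ℤ)

lemma indep_W (hd : S_dens) (hU : Gen U) {k : Type} [Field k] [NumberField k] :
    AlgebraicIndependent k (Wk U k) := by
  have h1 : AlgebraicIndependent ℤ (Wk U k) := by
    intro P Q hPQ
    apply evk_inj (k := k) hd hU
    rw [evk_eq_aeval, evk_eq_aeval]
    exact hPQ
  have : Algebra.IsAlgebraic ℤ k := by
    constructor
    intro c
    have h2 : IsAlgebraic ℚ c := Algebra.IsAlgebraic.isAlgebraic c
    exact (IsFractionRing.isAlgebraic_iff ℤ ℚ k).2 h2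
  exact h1.extendScalars k

end

section lin

variable {ι J : Type} [Fintype ι] [Fintype J] [Sm (ι × J)] {k : Type} [Field k] [NumberField k]

variable {U : Ultrafilter (ι × J → ℤ)}

lemma indep_V (hd : S_dens) (hU : Gen U) (z : J → k) (j0 : J) (hz : z j0 ≠ 0) :
    AlgebraicIndependent k (Sum.elim (fun q : {q : ι × J // q.2 ≠ j0} => Wk U k q.1)
      (Vk U z)) := by
  have h1 : aeval (Sum.elim (fun q : {q : ι × J // q.2 ≠ j0} => Wk U k q.1) (Vk U z)) =
      (aeval (Wk U k)).comp (phi z j0) := by
    apply MvPolynomial.algHom_ext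
    rintro (q | i)
    · rw [AlgHom.comp_apply, phi, aeval_X, Sum.elim_inl, aeval_X, Sum.elim_inl, aeval_X]
    · rw [AlgHom.comp_apply, phi, aeval_X, Sum.elim_inr, aeval_X, Sum.elim_inr, map_sum, Vk_eq]
      refine Finset.sum_congr rfl fun j _ => ?_
      rw [map_mul, aeval_X, aeval_C]
  intro P Q hPQ
  have h2 : aeval (Wk U k) (phi z j0 P) = aeval (Wk U k) (phi z j0 Q) := by
    have h3 := hPQ
    rw [h1] at h3
    exact h3
  exact phi_inj z j0 hz (indep_W hd hU h2)

/-- **`k(v)` is relatively algebraically closed in the ultrapower.** -/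
theorem rac (hd : S_dens) (hurel : S_urel) (hU : Gen U) (z : J → k) (j0 : J) (hz : z j0 ≠ 0)
    (x : UP U k) (hx : IsAlgebraic (adjoin k (Set.range (Vk U z))) x) :
    x ∈ adjoin k (Set.range (Vk U z)) := by
  classical
  set F := adjoin k (Set.range (Vk U z)) with hF
  have hFW : F ≤ adjoin k (Set.range (Wk U k)) := by
    rw [hF, adjoin_le_iff]
    rintro _ ⟨i, rfl⟩
    rw [Vk_eq]
    exact sum_mem fun j _ => mul_mem (_root_.algebraMap_mem _ _) (subset_adjoin _ _ ⟨_, rfl⟩)
  have hWA : adjoin k (Set.range (Wk U k)) ≤ algF hd hU k := by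
    rw [adjoin_le_iff]
    rintro _ ⟨i, rfl⟩
    exact Wk_alg hd hU i
  have h1 : x ∈ adjoin k (Set.range (Wk U k)) :=
    rac_w hd hurel hU x (algF_trans hd hU F (hFW.trans hWA) x hx)
  have h2 := indep_V hd hU z j0 hz
  rw [AlgebraicIndependent.sumElim_iff] at h2
  have h3 : AlgebraicIndependent F (fun q : {q : ι × J // q.2 ≠ j0} => Wk U k q.1) :=
    algebraicIndependent_adjoin_iff.2 h2.2
  have h4 : x ∈ adjoin F ((fun q : {q : ι × J // q.2 ≠ j0} => Wk U k q.1) ''
      ((Finset.univ : Finset {q : ι × J // q.2 ≠ j0}) : Set _)) := by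
    set G := adjoin F ((fun q : {q : ι × J // q.2 ≠ j0} => Wk U k q.1) ''
      ((Finset.univ : Finset {q : ι × J // q.2 ≠ j0}) : Set _)) with hG
    have h5 : adjoin k (Set.range (Wk U k)) ≤ G.restrictScalars k := by
      rw [adjoin_le_iff]
      rintro _ ⟨q, rfl⟩
      show Wk U k q ∈ G
      have h6 : ∀ q : ι × J, q.2 ≠ j0 → Wk U k q ∈ G := by
        intro q hq
        rw [hG]
        exact subset_adjoin _ _ ⟨⟨q, hq⟩, by simp, rfl⟩
      by_cases hq : q.2 = j0
      · have h7 := Vk_eq (U := U) z q.1
        rw [← Finset.add_sum_erase _ _ (Finset.mem_univ j0)] at h7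
        have h8 : Wk U k q = algebraMap k (UP U k) (z j0)⁻¹ * (Vk U z q.1 -
            ∑ j ∈ Finset.univ.erase j0, algebraMap k (UP U k) (z j) * Wk U k (q.1, j)) := by
          have h9 : q = (q.1, j0) := by
            rw [← hq]
          rw [h7, add_sub_cancel_right, ← mul_assoc, ← map_mul, inv_mul_cancel₀ hz, map_one,
            one_mul, ← h9]
        rw [h8]
        have hk : ∀ c : k, algebraMap k (UP U k) c ∈ G := fun c => by
          rw [IsScalarTower.algebraMap_apply k F (UP U k)]
          exact _root_.algebraMap_mem G _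
        refine mul_mem (hk _) (sub_mem ?_ (sum_mem fun j hj => mul_mem (hk _) ?_))
        · have : Vk U z q.1 ∈ F := subset_adjoin _ _ ⟨_, rfl⟩
          exact _root_.algebraMap_mem G (⟨_, this⟩ : F)
        · exact h6 _ (Finset.ne_of_mem_erase hj)
      · exact h6 q hq
    exact h5 h1
  obtain ⟨c, hc⟩ := mem_of_alg_adjoin h3 _ x h4 hx
  rw [← hc]
  exact c.2

end lin

end Pool.Agent.N455.TX
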