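import Pool.Agent.N455.TX.Sm
import Pool.Agent.N455.HT.Hit
import Pool.Agent.W883.UB.Dens
import Pool.Agent.W925.UB.Densp

/-!
# Sequences which are equidistributed modulo all integers give notions of density (helper455)
-/

set_option autoImplicit false
set_option linter.unusedSectionVars false

namespace Pool.Agent.N455.TX

open MvPolynomial Pool.Agent.N666.TM Pool.Agent.Y722.HS Pool.Agent.N455.HT

section

variable {ι : Type} [Fintype ι] [DecidableEq ι]

/-- the residue density of a set of small density in boxes is small -/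
theorem dens_of_UD {q : ℕ} (hq : 1 ≤ q) (Ω : Set (ι → ZMod q)) {ε : ℝ} (hε : 0 ≤ ε)
    (h : Pool.Agent.W275.UB.UD ε {v : ι → ℤ | red q v ∈ Ω}) :
    Pool.Agent.N666.TM.dens Ω ≤ 3 ^ Fintype.card ι * ε := by
  classical
  have : NeZero q := ⟨by omega⟩
  obtain ⟨H₀, hH₀⟩ := h
  set k : ℕ := H₀ + 1 with hk
  have hk1 : 1 ≤ k := by omega
  have hH := hH₀ (q * k) (by nlinarith)
  have hfin : ({v | v ∈ {v : ι → ℤ | red q v ∈ Ω} ∧ ∀ i, |v i| ≤ ((q * k : ℕ) : ℤ)} :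
      Set (ι → ℤ)).Finite := Pool.Agent.W275.UB.box_fin _ _
  have hΩ : Ω.Finite := Set.toFinite Ω
  set T : Finset ((ι → ZMod q) × (ι → Fin k)) := hΩ.toFinset ×ˢ Finset.univ with hT
  have hcard : T.card = Ω.ncard * k ^ Fintype.card ι := by
    rw [hT, Finset.card_product, Finset.card_univ, Fintype.card_fun, Fintype.card_fin,
      Set.ncard_eq_toFinset_card Ω hΩ]
  have hval : ∀ (ω : ι → ZMod q) (t : ι → Fin k) (i : ι),
      0 ≤ ((ω i).val : ℤ) + q * ((t i : ℕ) : ℤ) ∧ ((ω i).val : ℤ) + q * ((t i : ℕ) : ℤ) ≤ (q * k : ℕ) := by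
    intro ω t i
    have h1 : (ω i).val < q := ZMod.val_lt _
    have h2 : (t i : ℕ) < k := (t i).2
    refine ⟨by positivity, ?_⟩
    have h3 : (ω i).val + q * (t i : ℕ) ≤ q * k := by
      calc (ω i).val + q * (t i : ℕ) ≤ q + q * (t i : ℕ) := by omega
        _ = q * ((t i : ℕ) + 1) := by ring
        _ ≤ q * k := Nat.mul_le_mul_left _ h2
    exact_mod_cast h3
  have hle : T.card ≤ ({v | v ∈ {v : ι → ℤ | red q v ∈ Ω} ∧ ∀ i, |v i| ≤ ((q * k : ℕ) : ℤ)} :
      Set (ι → ℤ)).ncard := by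
    rw [← Set.ncard_coe_finset]
    refine Set.ncard_le_ncard_of_injOn (fun w i => ((w.1 i).val : ℤ) + q * ((w.2 i : ℕ) : ℤ)) ?_ ?_ hfin
    · rintro ⟨ω, t⟩ hw
      have hω : ω ∈ Ω := by
        rw [Finset.mem_coe, hT, Finset.mem_product, Set.Finite.mem_toFinset] at hw
        exact hw.1
      refine ⟨?_, fun i => ?_⟩
      · show red q _ ∈ Ω
        have h1 : red q (fun i => ((ω i).val : ℤ) + q * ((t i : ℕ) : ℤ)) = ω := by
          funext i
          simp [red]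
        rw [h1]
        exact hω
      · rw [abs_le]
        have := hval ω t i
        constructor
        · have h2 : (0 : ℤ) ≤ ((q * k : ℕ) : ℤ) := by positivity
          simp only
          linarith [this.1]
        · exact this.2
    · rintro ⟨ω, t⟩ _ ⟨ω', t'⟩ _ heq
      have h1 : ∀ i, (ω i).val = (ω' i).val ∧ (t i : ℕ) = (t' i : ℕ) := by
        intro i
        have h2 : ((ω i).val : ℤ) + q * ((t i : ℕ) : ℤ) = ((ω' i).val : ℤ) + q * ((t' i : ℕ) : ℤ) :=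
          congrFun heq i
        have h3 : (ω i).val + q * (t i : ℕ) = (ω' i).val + q * (t' i : ℕ) := by exact_mod_cast h2
        have h4 : (ω i).val < q := ZMod.val_lt _
        have h5 : (ω' i).val < q := ZMod.val_lt _
        have h6 : ((ω i).val + q * (t i : ℕ)) % q = ((ω' i).val + q * (t' i : ℕ)) % q := by rw [h3]
        rw [Nat.add_mul_mod_self_left, Nat.add_mul_mod_self_left, Nat.mod_eq_of_lt h4,
          Nat.mod_eq_of_lt h5] at h6
        refine ⟨h6, ?_⟩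
        rw [h6] at h3
        have h7 : q * (t i : ℕ) = q * (t' i : ℕ) := by omega
        exact Nat.eq_of_mul_eq_mul_left (by omega) h7
      apply Prod.ext
      · funext i
        exact ZMod.val_injective q (h1 i).1
      · funext i
        exact Fin.ext (h1 i).2
  have h1 : (Ω.ncard : ℝ) * (k : ℝ) ^ Fintype.card ι ≤ ε * (3 * q * k) ^ Fintype.card ι := by
    calc (Ω.ncard : ℝ) * (k : ℝ) ^ Fintype.card ι = (T.card : ℝ) := by rw [hcard]; push_cast; ring
      _ ≤ (({v | v ∈ {v : ι → ℤ | red q v ∈ Ω} ∧ ∀ i, |v i| ≤ ((q * k : ℕ) : ℤ)} :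
          Set (ι → ℤ)).ncard : ℝ) := by exact_mod_cast hle
      _ ≤ ε * (2 * ((q * k : ℕ) : ℝ) + 1) ^ Fintype.card ι := hH
      _ ≤ ε * (3 * q * k) ^ Fintype.card ι := by
        have h2 : (1 : ℝ) ≤ q * k := by
          have : 1 ≤ q * k := Nat.mul_pos (by omega) hk1
          exact_mod_cast this
        have h3 : 2 * ((q * k : ℕ) : ℝ) + 1 ≤ 3 * q * k := by
          push_cast
          linarith
        gcongr
  unfold Pool.Agent.N666.TM.dens
  have hq0 : (0 : ℝ) < q := by exact_mod_cast hq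
  have hk0 : (0 : ℝ) < k := by exact_mod_cast hk1
  rw [div_le_iff₀ (by positivity)]
  have h2 : (Ω.ncard : ℝ) * (k : ℝ) ^ Fintype.card ι ≤
      (3 ^ Fintype.card ι * ε * (q : ℝ) ^ Fintype.card ι) * (k : ℝ) ^ Fintype.card ι := by
    calc _ ≤ ε * (3 * q * k) ^ Fintype.card ι := h1
      _ = _ := by rw [mul_pow, mul_pow]; ring
  exact le_of_mul_le_mul_right h2 (by positivity)

/-- upper density at most `ε` along a sequence -/
def UDs (S : ℕ → Finset ℕ) (x : ℕ → ι → ℤ) (ε : ℝ) (A : Set (ι → ℤ)) : Prop :=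
  ∃ N₀ : ℕ, ∀ N : ℕ, N₀ ≤ N → ({n : ℕ | n ∈ S N ∧ x n ∈ A}.ncard : ℝ) ≤ ε * (S N).card

theorem UDs.mono {S : ℕ → Finset ℕ} {x : ℕ → ι → ℤ} {ε : ℝ} {A B : Set (ι → ℤ)} (h : UDs S x ε B)
    (hAB : A ⊆ B) : UDs S x ε A := by
  obtain ⟨N₀, h⟩ := h
  refine ⟨N₀, fun N hN => le_trans ?_ (h N hN)⟩
  have h1 : {n : ℕ | n ∈ S N ∧ x n ∈ A} ⊆ {n : ℕ | n ∈ S N ∧ x n ∈ B} := fun n hn => ⟨hn.1, hAB hn.2⟩
  exact_mod_cast Set.ncard_le_ncard h1 ((Finset.finite_toSet (S N)).subset fun n hn => hn.1)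

theorem cast_ev {q : ℕ} (v : ι → ℤ) (c : MvPolynomial ι ℤ) :
    ev (red q v) c = ((eval v c : ℤ) : ZMod q) := by
  rw [ev_red, RingHom.comp_apply]
  have : ev v c = eval v c := by
    rw [ev_eq_eval_map]
    congr 1
    exact MvPolynomial.map_id c
  rw [this]
  rfl

theorem udS_of_UD {S : ℕ → Finset ℕ} {x : ℕ → ι → ℤ} (hw : WS S x) {q : ℕ} (hq : 1 ≤ q)
    (c : MvPolynomial ι ℤ) {ε : ℝ} (hε : 0 ≤ ε)
    (h : Pool.Agent.W275.UB.UD (ε / (2 * 3 ^ Fintype.card ι)) {v : ι → ℤ | (q : ℤ) ∣ eval v c}) :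
    UDs S x ε {v : ι → ℤ | (q : ℤ) ∣ eval v c} := by
  have hset : {v : ι → ℤ | (q : ℤ) ∣ eval v c} = {v : ι → ℤ | red q v ∈ {w | ev w c = 0}} := by
    ext v
    show (q : ℤ) ∣ eval v c ↔ ev (red q v) c = 0
    rw [cast_ev, ZMod.intCast_zmod_eq_zero_iff_dvd]
  rw [hset] at h ⊢
  have h1 := dens_of_UD hq _ (by positivity) h
  obtain ⟨N₀, hN₀⟩ := periodic_le hw q hq {w | ev w c = 0} (ε := ε) (by
    calc 2 * Pool.Agent.N666.TM.dens {w : ι → ZMod q | ev w c = 0} ≤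
        2 * (3 ^ Fintype.card ι * (ε / (2 * 3 ^ Fintype.card ι))) := by linarith
      _ = ε := by field_simp)
  exact ⟨N₀, hN₀⟩

/-- **the notion of density along a sequence** -/
@[reducible] noncomputable def smOf {S : ℕ → Finset ℕ} {x : ℕ → ι → ℤ} (hw : WS S x) : Sm ι where
  UD := UDs S x
  mono' := fun h hST => UDs.mono h hST
  union' := by
    rintro ε ε' A B ⟨N₁, h₁⟩ ⟨N₂, h₂⟩
    refine ⟨max N₁ N₂, fun N hN => ?_⟩
    have a1 := h₁ N ((le_max_left _ _).trans hN)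
    have a2 := h₂ N ((le_max_right _ _).trans hN)
    have h3 : {n : ℕ | n ∈ S N ∧ x n ∈ A ∪ B} =
        {n : ℕ | n ∈ S N ∧ x n ∈ A} ∪ {n : ℕ | n ∈ S N ∧ x n ∈ B} := by
      ext n
      simp only [Set.mem_union, Set.mem_ofPred_eq]
      tauto
    have h4 : (({n : ℕ | n ∈ S N ∧ x n ∈ A ∪ B}.ncard : ℕ) : ℝ) ≤
        ({n : ℕ | n ∈ S N ∧ x n ∈ A}.ncard : ℝ) + ({n : ℕ | n ∈ S N ∧ x n ∈ B}.ncard : ℝ) := by
      rw [h3]
      exact_mod_cast Set.ncard_union_le _ _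
    linarith
  le' := by
    rintro ε δ A h ⟨N₀, hN₀⟩
    refine ⟨N₀, fun N hN => (hN₀ N hN).trans ?_⟩
    gcongr
  empty' := by
    intro ε hε
    refine ⟨0, fun N _ => ?_⟩
    have : {n : ℕ | n ∈ S N ∧ x n ∈ (∅ : Set (ι → ℤ))} = ∅ := by
      ext n
      simp
    rw [this, Set.ncard_empty]
    push_cast
    positivity
  densp' := by
    intro c hc ε hε
    obtain ⟨P₀, hP₀⟩ := Pool.Agent.W925.UB.Densp.main ι c hc (ε / (2 * 3 ^ Fintype.card ι))
      (by positivity)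
    exact ⟨P₀, fun p hp hpP => udS_of_UD hw hp.one_lt.le c hε.le (hP₀ p hp hpP)⟩
  hit' := by
    intro P hP hroot ε hε
    obtain ⟨N₀, hN₀⟩ := hit_monic hw P.natDegree P rfl hP hroot ε hε
    refine ⟨N₀, fun N hN => le_trans ?_ (hN₀ N hN)⟩
    have h1 : {n : ℕ | n ∈ S N ∧ x n ∈ {v : ι → ℤ | ∃ T : ℤ, (P.map (eval v)).eval T = 0}} ⊆
        {n : ℕ | n ∈ S N ∧ n ∈ {n | ∃ a : ℤ, IsRt P (x n) a}} := by
      rintro n ⟨hn, a, ha⟩
      refine ⟨hn, a, ?_⟩
      unfold IsRt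
      have h2 : (ev (x n) : MvPolynomial ι ℤ →+* ℤ) = eval (x n) := by
        refine RingHom.ext fun c => ?_
        rw [ev_eq_eval_map]
        congr 1
        exact MvPolynomial.map_id c
      rw [h2]
      exact ha
    exact_mod_cast Set.ncard_le_ncard h1 ((Finset.finite_toSet (S N)).subset fun n hn => hn.1)

end

end Pool.Agent.N455.TX
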