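import Pool.Agent.N455.TX.Prt
import Pool.Agent.N455.TX.Univ

set_option autoImplicit false

/-! Every portrait of the generic member specialises along equidistributed sequences: rational numbers. -/

namespace Pool.Agent.N455.TX
open Pool.Agent.Y706

open MvPolynomial Pool.Agent.H936R2 Pool.Agent.H927R2.RD H294UB Pool.Agent.W275.UB
  Pool.Agent.W193.UB Pool.Agent.W554.UB NumberField Filter Topology
open Pool.Agent.N455.HT (Equi WS)
open Pool.Agent.N666.TM (NullIn)

section

variable {N d m : ℕ} {F : Fin (N + 1) → MvPolynomial (Fin (N + 1)) (MvPolynomial (Fin m) ℚ)}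

theorem coeffs (hF : ∀ i, (F i).IsHomogeneous d)
    (hmor : MorP fun i => (F i).map (algebraMap (MvPolynomial (Fin m) ℚ)
      (FractionRing (MvPolynomial (Fin m) ℚ)))) :
    ∃ (v : Idx (N + 1) d → MvPolynomial (Fin m) ℚ) (s : ℕ),
      (∀ {S : Type} [CommRing S] (φ : MvPolynomial (Fin m) ℚ →+* S),
        (fun i => (F i).map φ) = sy fun i => φ (v i)) ∧
      MonIn s (sy fun i => algebraMap (MvPolynomial (Fin m) ℚ)
        (FractionRing (MvPolynomial (Fin m) ℚ)) (v i)) := by
  obtain ⟨v, hv⟩ : ∃ v : Idx (N + 1) d → MvPolynomial (Fin m) ℚ,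
    v = fun i => coeff (expo i.2) (F i.1) := ⟨_, rfl⟩
  have hFv : F = sy v := by
    rw [hv]
    funext i
    exact (form_coeff (hF i)).symm
  have hmap : ∀ {S : Type} [CommRing S] (φ : MvPolynomial (Fin m) ℚ →+* S),
      (fun i => (F i).map φ) = sy fun i => φ (v i) := by
    intro S _ φ
    rw [hFv]
    exact Pool.Agent.W193.UB.map_sy φ v
  rw [hmap] at hmor
  obtain ⟨vK, hvK⟩ : ∃ vK : Idx (N + 1) d → KF ℚ m,
    vK = fun i => algebraMap (RR ℚ m) (KF ℚ m) (v i) := ⟨_, rfl⟩
  obtain ⟨s, c, hc, hMC⟩ := exists_monC (algebraMap (KF ℚ m)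
    (AlgebraicClosure (KF ℚ m))) vK (by
      intro x hx
      apply hmor x
      intro i
      have h1 := hx i
      rw [hvK, ← Pool.Agent.W193.UB.map_sy, eval_map] at h1
      rw [aeval_def]
      exact h1)
  have hc0 : c ≠ 0 := by
    rintro rfl
    exact hc (map_zero _)
  have hM : MonIn s (sy vK) := hMC.monIn (isUnit_iff_ne_zero.2 hc0)
  rw [hvK] at hM
  exact ⟨v, s, hmap, hM⟩

theorem spec_Q (hd : 2 ≤ d) (hF : ∀ i, (F i).IsHomogeneous d)
    (hmor : MorP fun i => (F i).map (algebraMap (MvPolynomial (Fin m) ℚ)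
      (FractionRing (MvPolynomial (Fin m) ℚ)))) {r : ℕ}
    {x : Fin r → Fin (N + 1) → MvPolynomial (Fin m) ℚ} {σ : Fin r → Fin r}
    (hport : PortO (fun i => (F i).map (algebraMap (MvPolynomial (Fin m) ℚ)
        (FractionRing (MvPolynomial (Fin m) ℚ)))) (fun i j => algebraMap (MvPolynomial (Fin m) ℚ)
        (FractionRing (MvPolynomial (Fin m) ℚ)) (x i j)) σ) :
    (∀ (S : ℕ → Finset ℕ) (v : ℕ → Fin m → ℤ), Equi S v →
      NullIn S {n | ¬ (
        MorP (fun i => (F i).map (MvPolynomial.eval fun l : Fin m => (v n l : ℚ))) ∧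
        PortO (fun i => (F i).map (MvPolynomial.eval fun l : Fin m => (v n l : ℚ)))
          (fun i j => MvPolynomial.eval (fun l : Fin m => (v n l : ℚ)) (x i j)) σ)}) ∧
    (∀ (S : ℕ → Finset ℕ) (v : ℕ → Fin (m + 1) → ℤ), Equi S v →
      NullIn S {n | ¬ (v n 0 ≠ 0 ∧
        MorP (fun i => (F i).map (MvPolynomial.eval fun l : Fin m =>
          (v n l.succ : ℚ) / (v n 0 : ℚ))) ∧
        PortO (fun i => (F i).map (MvPolynomial.eval fun l : Fin m =>
          (v n l.succ : ℚ) / (v n 0 : ℚ))) (fun i j => MvPolynomial.eval (fun l : Fin m =>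
          (v n l.succ : ℚ) / (v n 0 : ℚ)) (x i j)) σ)}) := by
  classical
  obtain ⟨v, s, hmap, hM⟩ := coeffs hF hmor
  rw [hmap] at hport
  have hport' := PortO.portrait (Pool.Agent.W193.UB.sy_hom _) hM hport
  have hmor' : ∀ (t : Fin m → ℚ) (s' : ℕ), MonIn s' (sy fun i => eval t (v i)) →
      MorP (fun i => (F i).map (MvPolynomial.eval t)) := by
    intro t s' g2
    rw [hmap]
    intro x hx
    have g5 : MonIn s' (sy fun i => algebraMap ℚ (AlgebraicClosure ℚ) (eval t (v i))) :=
      monIn_map (algebraMap ℚ (AlgebraicClosure ℚ)) g2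
    apply no_zero _ g5 x
    intro i
    have h1 := hx i
    rw [aeval_def] at h1
    rw [← Pool.Agent.W193.UB.map_sy, eval_map]
    exact h1
  constructor
  · intro S u hu
    let : Sm (Fin m × Unit) := smU
    have h2 := port_iv omQ hd v hM hport'
    have hw : WS S (fun n (q : Fin m × Unit) => u n q.1) :=
      WS.of_equi (equi_comp (Equiv.prodUnique (Fin m) Unit) hu)
    have h3 := nullIn_of_D0 h2 hw
    refine Pool.Agent.N455.HT.NullIn.mono' h3 ?_
    intro n hn hcon
    apply hn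
    obtain ⟨⟨s', g2⟩, g3⟩ := hcon
    set w : Fin m × Unit → ℤ := fun q => u n q.1 with hw'
    have htp : (fun l : Fin m => ((u n l : ℤ) : ℚ)) = iv omQ w := by
      funext l
      unfold iv
      rw [vec_omQ]
    rw [htp]
    refine ⟨hmor' _ s' g2, ?_⟩
    rw [hmap]
    exact g3.portO (Pool.Agent.W193.UB.sy_hom _) g2
  · intro S u hu
    let : Sm (Fin (m + 1) × Unit) := smU
    have h2 := port_tp omQ hd v hM hport'
    have hw : WS S (fun n (q : Fin (m + 1) × Unit) => u n q.1) :=
      WS.of_equi (equi_comp (Equiv.prodUnique (Fin (m + 1)) Unit) hu)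
    have h3 := nullIn_of_D0 h2 hw
    refine Pool.Agent.N455.HT.NullIn.mono' h3 ?_
    intro n hn hcon
    apply hn
    obtain ⟨g1, ⟨s', g2⟩, g3⟩ := hcon
    set w : Fin (m + 1) × Unit → ℤ := fun q => u n q.1 with hw'
    have htp : (fun l : Fin m => ((u n l.succ : ℤ) : ℚ) / ((u n 0 : ℤ) : ℚ)) = tp omQ w := by
      funext l
      unfold tp
      rw [vec_omQ, vec_omQ]
    rw [htp]
    refine ⟨?_, hmor' _ s' g2, ?_⟩
    · intro h0
      apply g1
      have h3 := vec_omQ w (0 : Fin (m + 1))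
      rw [show w (0, ()) = 0 from h0, Int.cast_zero, FaithfulSMul.algebraMap_eq_zero_iff] at h3
      exact h3
    · rw [hmap]
      exact g3.portO (Pool.Agent.W193.UB.sy_hom _) g2

end

end Pool.Agent.N455.TX
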